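import Pool.Agent.Lib_helper63.Pal.Defs

/-! The Cantor type word. -/

namespace Pool.Agent.Lib_helper63.Pal

/-- Does the base 3 expansion of `q` contain the digit 1? -/
def one (q : ℕ) : Bool := (Nat.digits 3 q).contains 1

theorem one_zero : one 0 = false := by simp [one]

theorem one_mul3 (q : ℕ) : one (3 * q) = one q := by
  rcases Nat.eq_zero_or_pos q with h | h
  · subst h; rfl
  · unfold one
    rw [Nat.digits_def' (by norm_num) (by omega)]
    have h1 : 3 * q % 3 = 0 := by omega
    have h2 : 3 * q / 3 = q := by omega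
    rw [h1, h2]; simp

theorem one_mul3_1 (q : ℕ) : one (3 * q + 1) = true := by
  unfold one
  rw [Nat.digits_def' (by norm_num) (by omega)]
  have h1 : (3 * q + 1) % 3 = 1 := by omega
  rw [h1]; simp

theorem one_mul3_2 (q : ℕ) : one (3 * q + 2) = one q := by
  unfold one
  rw [Nat.digits_def' (by norm_num) (by omega)]
  have h1 : (3 * q + 2) % 3 = 2 := by omega
  have h2 : (3 * q + 2) / 3 = q := by omega
  rw [h1, h2]; simp

theorem one_succ (q : ℕ) : one q = true ∨ one (q + 1) = true := by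
  induction q using Nat.strong_induction_on with
  | _ q ih =>
    obtain ⟨Q, h | h | h⟩ : ∃ Q, q = 3 * Q ∨ q = 3 * Q + 1 ∨ q = 3 * Q + 2 := ⟨q / 3, by omega⟩
    · subst h; right; exact one_mul3_1 Q
    · subst h; left; exact one_mul3_1 Q
    · subst h
      have e : 3 * Q + 2 + 1 = 3 * (Q + 1) := by ring
      rw [e, one_mul3_2, one_mul3]
      exact ih Q (by omega)

/-- no block `0110`. -/
theorem one_four (q : ℕ) (h0 : one q = false) (h1 : one (q + 1) = true)
    (h2 : one (q + 2) = true) : one (q + 3) = true := by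
  obtain ⟨Q, h | h | h⟩ : ∃ Q, q = 3 * Q ∨ q = 3 * Q + 1 ∨ q = 3 * Q + 2 := ⟨q / 3, by omega⟩
  · subst h
    rw [one_mul3_2] at h2
    rw [one_mul3] at h0
    rw [h0] at h2; exact absurd h2 (by simp)
  · subst h
    rw [one_mul3_1] at h0; exact absurd h0 (by simp)
  · subst h
    have e1 : 3 * Q + 2 + 1 = 3 * (Q + 1) := by ring
    have e3 : 3 * Q + 2 + 3 = 3 * (Q + 1) + 2 := by ring
    rw [e1, one_mul3] at h1
    rw [e3, one_mul3_2]; exact h1

theorem one_pow (m q s : ℕ) (hs : s < 3 ^ m) : one (3 ^ m * q + s) = (one q || one s) := by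
  induction m generalizing q s with
  | zero =>
    have : s = 0 := by simpa using hs
    subst this; simp [one_zero]
  | succ m ih =>
    have h3 : 3 ^ (m + 1) = 3 * 3 ^ m := by ring
    obtain ⟨S, h⟩ : ∃ S, s = 3 * S ∨ s = 3 * S + 1 ∨ s = 3 * S + 2 := ⟨s / 3, by omega⟩
    rcases h with h | h | h
    · subst h
      have e : 3 ^ (m + 1) * q + 3 * S = 3 * (3 ^ m * q + S) := by ring
      rw [e, one_mul3, one_mul3, ih q S (by omega)]
    · subst h
      have e : 3 ^ (m + 1) * q + (3 * S + 1) = 3 * (3 ^ m * q + S) + 1 := by ring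
      rw [e, one_mul3_1, one_mul3_1]; simp
    · subst h
      have e : 3 ^ (m + 1) * q + (3 * S + 2) = 3 * (3 ^ m * q + S) + 2 := by ring
      rw [e, one_mul3_2, one_mul3_2, ih q S (by omega)]

theorem one_symm (m s : ℕ) (hs : s < 3 ^ m) : one (3 ^ m - 1 - s) = one s := by
  induction m generalizing s with
  | zero =>
    have : s = 0 := by simpa using hs
    subst this; simp
  | succ m ih =>
    have h3 : 3 ^ (m + 1) = 3 * 3 ^ m := by ring
    obtain ⟨S, h⟩ : ∃ S, s = 3 * S ∨ s = 3 * S + 1 ∨ s = 3 * S + 2 := ⟨s / 3, by omega⟩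
    rcases h with h | h | h
    · subst h
      have e : 3 ^ (m + 1) - 1 - 3 * S = 3 * (3 ^ m - 1 - S) + 2 := by omega
      rw [e, one_mul3_2, one_mul3, ih S (by omega)]
    · subst h
      have e : 3 ^ (m + 1) - 1 - (3 * S + 1) = 3 * (3 ^ m - 1 - S) + 1 := by omega
      rw [e, one_mul3_1, one_mul3_1]
    · subst h
      have e : 3 ^ (m + 1) - 1 - (3 * S + 2) = 3 * (3 ^ m - 1 - S) := by omega
      rw [e, one_mul3, one_mul3_2, ih S (by omega)]

/-- The word `abcacba` as a function on `{0,…,6}` (`a = 0`, `b = 1`, `c = 2`). -/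
def blk : Fin 7 → Fin 4 := ![0, 1, 2, 0, 2, 1, 0]

/-- The word `u`; the letter `3` plays the role of `d`. -/
def u (i : ℕ) : Fin 4 := if one (i / 7) then 3 else blk ⟨i % 7, Nat.mod_lt _ (by norm_num)⟩

theorem blk_ne (r : Fin 7) : blk r ≠ 3 := by revert r; decide

theorem blk_symm (r : Fin 7) : blk (Fin.rev r) = blk r := by revert r; decide

theorem u_eq_three (i : ℕ) : u i = 3 ↔ one (i / 7) = true := by
  unfold u
  split_ifs with h
  · simp [h]
  · simp only [h]
    constructor
    · intro h1; exact absurd h1 (blk_ne _)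
    · intro h1; exact absurd h1 (by simp)

/-- block structure at level `m`. -/
theorem u_block (m q r : ℕ) (hr : r < 7 * 3 ^ m) :
    u (7 * 3 ^ m * q + r) = if one q then 3 else u r := by
  have h1 : (7 * 3 ^ m * q + r) / 7 = 3 ^ m * q + r / 7 := by
    have : 7 * 3 ^ m * q + r = r + 7 * (3 ^ m * q) := by ring
    rw [this, Nat.add_mul_div_left _ _ (by norm_num)]; ring
  have h2 : (7 * 3 ^ m * q + r) % 7 = r % 7 := by
    have : 7 * 3 ^ m * q + r = r + 7 * (3 ^ m * q) := by ring
    rw [this, Nat.add_mul_mod_self_left]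
  unfold u
  simp only [h1, h2]
  rw [one_pow m q (r / 7) (by omega)]
  by_cases hq : one q = true
  · simp [hq]
  · simp [Bool.not_eq_true] at hq
    simp [hq]

theorem u_symm (m j : ℕ) (hj : j < 7 * 3 ^ m) : u (7 * 3 ^ m - 1 - j) = u j := by
  have h1 : (7 * 3 ^ m - 1 - j) / 7 = 3 ^ m - 1 - j / 7 := by omega
  have h2 : (7 * 3 ^ m - 1 - j) % 7 = 6 - j % 7 := by omega
  unfold u
  simp only [h1, h2]
  rw [one_symm m (j / 7) (by omega)]
  congr 1
  have := blk_symm ⟨j % 7, Nat.mod_lt _ (by norm_num)⟩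
  rw [← this]
  congr 1
  apply Fin.ext
  simp only [Fin.val_rev]
  omega

theorem u_zero : u 0 = 0 := by
  have : one (0 / 7) = false := by simp [one]
  simp [u, one, blk]

theorem u_last (m : ℕ) : u (7 * 3 ^ m - 1) = 0 := by
  have h := u_symm m 0 (by positivity)
  simpa [u_zero] using h

end Pool.Agent.Lib_helper63.Pal
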