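import Pool.Agent.Lib_helper63.Pal.Sync

/-! Counting factors: `C(n+1) = C(n) + 2` for `n ≥ 8`. -/

namespace Pool.Agent.Lib_helper63.Pal

theorem win_length {α : Type*} (v : ℕ → α) (i n : ℕ) : (win v i n).length = n := by
  simp [win]

theorem win_succ {α : Type*} (v : ℕ → α) (i n : ℕ) :
    win v i (n + 1) = win v i n ++ [v (i + n)] := by
  simp [win, List.range_succ]

theorem lang_length {α : Type*} (v : ℕ → α) (n : ℕ) :
    {w | w ∈ lang v ∧ w.length = n} = Set.range (fun i => win v i n) := by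
  ext w
  simp only [lang, Set.mem_ofPred_eq, Set.mem_range]
  constructor
  · rintro ⟨⟨i, k, rfl⟩, hk⟩
    rw [win_length] at hk
    subst hk
    exact ⟨i, rfl⟩
  · rintro ⟨i, rfl⟩
    exact ⟨⟨i, n, rfl⟩, win_length _ _ _⟩

theorem level (n : ℕ) (hn : 8 ≤ n) : ∃ m, 7 * 3 ^ m < n ∧ n ≤ 3 * (7 * 3 ^ m) := by
  refine ⟨Nat.log 3 ((n - 1) / 7), ?_, ?_⟩
  · have h := Nat.pow_log_le_self 3 (x := (n - 1) / 7) (by omega)
    have h2 : 7 * 3 ^ Nat.log 3 ((n - 1) / 7) ≤ 7 * ((n - 1) / 7) := Nat.mul_le_mul_left _ h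
    have h3 : 7 * ((n - 1) / 7) ≤ n - 1 := Nat.mul_div_le _ _
    omega
  · have h := Nat.lt_pow_succ_log_self (b := 3) (by norm_num) ((n - 1) / 7)
    rw [pow_succ] at h
    have h2 : n - 1 < 7 * ((n - 1) / 7 + 1) := by omega
    have h3 : (n - 1) / 7 + 1 ≤ 3 ^ Nat.log 3 ((n - 1) / 7) * 3 := h
    omega

theorem Kpos (m : ℕ) : 0 < 7 * 3 ^ m := by positivity

theorem decomp (m i : ℕ) : ∃ q r, r < 7 * 3 ^ m ∧ i = 7 * 3 ^ m * q + r :=
  ⟨i / (7 * 3 ^ m), i % (7 * 3 ^ m), Nat.mod_lt _ (Kpos m), (Nat.div_add_mod i _).symm⟩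

/-- windows with the same offset and the same block types agree -/
theorem agree_of_types {m q q' r n : ℕ}
    (h : ∀ t, 7 * 3 ^ m * t < r + n → one (q + t) = one (q' + t)) :
    Agree (7 * 3 ^ m * q + r) (7 * 3 ^ m * q' + r) n := by
  intro j hj
  have hK := Kpos m
  have hdm := Nat.div_add_mod (r + j) (7 * 3 ^ m)
  have hs := Nat.mod_lt (r + j) hK
  generalize (r + j) / (7 * 3 ^ m) = t at hdm
  generalize (r + j) % (7 * 3 ^ m) = s at hdm hs
  have e1 : 7 * 3 ^ m * q + r + j = 7 * 3 ^ m * (q + t) + s := by rw [mul_add]; omega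
  have e2 : 7 * 3 ^ m * q' + r + j = 7 * 3 ^ m * (q' + t) + s := by rw [mul_add]; omega
  rw [e1, e2, u_block m _ s hs, u_block m _ s hs, h t (by omega)]

/-- equal windows have the same touched block types -/
theorem types_of_agree {m q q' r n : ℕ} (hr : r < 7 * 3 ^ m) (hn : 7 * 3 ^ m < n)
    (h : Agree (7 * 3 ^ m * q + r) (7 * 3 ^ m * q' + r) n) (t : ℕ)
    (ht : 7 * 3 ^ m * t < r + n) : one (q + t) = one (q' + t) := by
  rcases Nat.eq_zero_or_pos t with h0 | h0
  · subst h0
    apply one_eq_of_last (m := m)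
    have h1 := h (7 * 3 ^ m - 1 - r) (by omega)
    rw [show 7 * 3 ^ m * q + r + (7 * 3 ^ m - 1 - r) = 7 * 3 ^ m * q + (7 * 3 ^ m - 1) by omega,
      show 7 * 3 ^ m * q' + r + (7 * 3 ^ m - 1 - r) = 7 * 3 ^ m * q' + (7 * 3 ^ m - 1) by omega]
      at h1
    exact h1
  · apply one_eq_of_zero (m := m)
    have hKt : 7 * 3 ^ m ≤ 7 * 3 ^ m * t := Nat.le_mul_of_pos_right _ h0
    have h1 := h (7 * 3 ^ m * t - r) (by omega)
    rw [show 7 * 3 ^ m * q + r + (7 * 3 ^ m * t - r) = 7 * 3 ^ m * (q + t) by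
        rw [mul_add]; omega,
      show 7 * 3 ^ m * q' + r + (7 * 3 ^ m * t - r) = 7 * 3 ^ m * (q' + t) by
        rw [mul_add]; omega] at h1
    exact h1

theorem nonD_iff {m q r n : ℕ} (hr : r < 7 * 3 ^ m) (hn : 7 * 3 ^ m < n) :
    NonD (7 * 3 ^ m * q + r) n ↔ ∃ t, 7 * 3 ^ m * t < r + n ∧ one (q + t) = false := by
  constructor
  · rintro ⟨j, hj, hne⟩
    have hK := Kpos m
    have hdm := Nat.div_add_mod (r + j) (7 * 3 ^ m)
    have hs := Nat.mod_lt (r + j) hK
    generalize (r + j) / (7 * 3 ^ m) = t at hdm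
    generalize (r + j) % (7 * 3 ^ m) = s at hdm hs
    have e1 : 7 * 3 ^ m * q + r + j = 7 * 3 ^ m * (q + t) + s := by rw [mul_add]; omega
    refine ⟨t, by omega, ?_⟩
    rw [e1, u_block m _ s hs] at hne
    cases h : one (q + t)
    · rfl
    · rw [h] at hne; simp at hne
  · rintro ⟨t, ht, hone⟩
    rcases Nat.eq_zero_or_pos t with h0 | h0
    · subst h0
      refine ⟨7 * 3 ^ m - 1 - r, by omega, ?_⟩
      rw [show 7 * 3 ^ m * q + r + (7 * 3 ^ m - 1 - r) = 7 * 3 ^ m * q + (7 * 3 ^ m - 1) by omega,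
        u_block_last]
      rw [add_zero] at hone
      simp [hone]
    · have hKt : 7 * 3 ^ m ≤ 7 * 3 ^ m * t := Nat.le_mul_of_pos_right _ h0
      refine ⟨7 * 3 ^ m * t - r, by omega, ?_⟩
      rw [show 7 * 3 ^ m * q + r + (7 * 3 ^ m * t - r) = 7 * 3 ^ m * (q + t) by
        rw [mul_add]; omega, u_block_zero]
      simp [hone]

/-- the position `i` carries the special right special factor of length `n` -/
def Spec (m n i : ℕ) : Prop :=
  ∃ q r, r < 7 * 3 ^ m ∧ i = 7 * 3 ^ m * q + r ∧
    ((r + n = 2 * (7 * 3 ^ m) ∧ one q = false ∧ one (q + 1) = true) ∨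
     (r + n = 3 * (7 * 3 ^ m) ∧ one q = true ∧ one (q + 1) = false ∧ one (q + 2) = true))

theorem same_offset {m n i i' q r : ℕ} (hn : 7 * 3 ^ m < n) (hr : r < 7 * 3 ^ m)
    (hi : i = 7 * 3 ^ m * q + r) (ha : Agree i i' n) (hd : NonD i n) :
    ∃ q', i' = 7 * 3 ^ m * q' + r := by
  have h := sync hn ha hd
  obtain ⟨q', r', hr', hi'⟩ := decomp m i'
  refine ⟨q', ?_⟩
  unfold Nat.ModEq at h
  rw [hi, hi', Nat.mul_add_mod, Nat.mul_add_mod, Nat.mod_eq_of_lt hr,
        Nat.mod_eq_of_lt hr'] at h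
  rw [hi', h]

theorem u_block_s (m q s : ℕ) (hs : s = 0) : u (7 * 3 ^ m * q + s) = if one q then 3 else 0 := by
  subst hs; rw [add_zero, u_block_zero]

/-- non-special windows have a unique right extension -/
theorem ext_unique {m n i i' : ℕ} (hn : 7 * 3 ^ m < n) (hn3 : n ≤ 3 * (7 * 3 ^ m))
    (hd : NonD i n) (hs : ¬ Spec m n i) (ha : Agree i i' n) : u (i' + n) = u (i + n) := by
  obtain ⟨q, r, hr, hi⟩ := decomp m i
  obtain ⟨q', hi'⟩ := same_offset hn hr hi ha hd
  subst hi; subst hi'
  have hty := fun t ht => types_of_agree hr hn ha t ht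
  have hK := Kpos m
  have hdm := Nat.div_add_mod (r + n) (7 * 3 ^ m)
  have hslt := Nat.mod_lt (r + n) hK
  have htlt : (r + n) / (7 * 3 ^ m) < 4 := by
    rw [Nat.div_lt_iff_lt_mul hK]; omega
  generalize (r + n) / (7 * 3 ^ m) = t at hdm htlt
  generalize (r + n) % (7 * 3 ^ m) = s at hdm hslt
  have e1 : 7 * 3 ^ m * q + r + n = 7 * 3 ^ m * (q + t) + s := by rw [mul_add]; omega
  have e2 : 7 * 3 ^ m * q' + r + n = 7 * 3 ^ m * (q' + t) + s := by rw [mul_add]; omega
  rcases Nat.eq_zero_or_pos s with h0 | h0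
  · subst h0
    have ht2 : t = 2 ∨ t = 3 := by
      interval_cases t
      · omega
      · omega
      · exact Or.inl rfl
      · exact Or.inr rfl
    have hnd := (nonD_iff hr hn).1 hd
    have fin : one (q + t) = true → one (q' + t) = true →
        u (7 * 3 ^ m * q' + r + n) = u (7 * 3 ^ m * q + r + n) := by
      intro h1 h2
      rw [e1, e2, u_block_s _ _ _ rfl, u_block_s _ _ _ rfl, h1, h2]
    rcases ht2 with ht | ht
    · subst ht
      have t0 := hty 0 (by omega)
      have t1 := hty 1 (by omega)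
      rw [add_zero, add_zero] at t0
      obtain ⟨t, ht, hone⟩ := hnd
      have htle : t < 2 := by
        by_contra hcon
        push Not at hcon
        have : 7 * 3 ^ m * 2 ≤ 7 * 3 ^ m * t := Nat.mul_le_mul_left _ hcon
        omega
      have hq1 : one (q + 1) = false := by
        by_contra hcon
        rw [Bool.not_eq_false] at hcon
        interval_cases t
        · exact hs ⟨q, r, hr, rfl, Or.inl ⟨by omega, by simpa using hone, hcon⟩⟩
        · rw [hcon] at hone; exact absurd hone (by simp)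
      have a := one_succ (q + 1)
      have b := one_succ (q' + 1)
      rw [hq1] at a t1
      rw [← t1] at b
      refine fin ?_ ?_
      · rcases a with a | a
        · exact absurd a (by simp)
        · exact a
      · rcases b with b | b
        · exact absurd b (by simp)
        · exact b
    · subst ht
      have t0 := hty 0 (by omega)
      have t1 := hty 1 (by omega)
      have t2 := hty 2 (by omega)
      rw [add_zero, add_zero] at t0
      obtain ⟨t, ht, hone⟩ := hnd
      have htle : t < 3 := by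
        by_contra hcon
        push Not at hcon
        have : 7 * 3 ^ m * 3 ≤ 7 * 3 ^ m * t := Nat.mul_le_mul_left _ hcon
        omega
      have hall : ¬ (one q = true ∧ one (q + 1) = false ∧ one (q + 2) = true) := by
        rintro ⟨a, b, c⟩
        exact hs ⟨q, r, hr, rfl, Or.inr ⟨by omega, a, b, c⟩⟩
      have hsome : one q = false ∨ one (q + 1) = false ∨ one (q + 2) = false := by
        interval_cases t
        · exact Or.inl (by simpa using hone)
        · exact Or.inr (Or.inl hone)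
        · exact Or.inr (Or.inr hone)
      have key : ∀ p, one p = one q → one (p + 1) = one (q + 1) → one (p + 2) = one (q + 2) →
          one (p + 3) = true := by
        intro p p0 p1 p2
        have s0 := one_succ p
        have s1 := one_succ (p + 1)
        have s2 := one_succ (p + 2)
        have f := one_four p
        rw [p0] at s0 f
        rw [show p + 1 + 1 = p + 2 by ring, p1, p2] at s1
        rw [show p + 2 + 1 = p + 3 by ring, p2] at s2
        rw [p1] at s0 f
        rw [p2] at f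
        revert hall hsome s0 s1 s2 f
        generalize one q = a
        generalize one (q + 1) = b
        generalize one (q + 2) = c
        generalize one (p + 3) = d
        revert a b c d
        decide
      exact fin (key q rfl rfl rfl) (key q' t0.symm t1.symm t2.symm)
  · have htt := hty t (by omega)
    rw [e1, e2, u_block m _ s hslt, u_block m _ s hslt, htt]

end Pool.Agent.Lib_helper63.Pal
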