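import Pool.Agent.Lib_helper63.Pal.Count

/-! `C(n+1) = C(n) + 2` for `n ≥ 8`. -/

namespace Pool.Agent.Lib_helper63.Pal

theorem one_1 : one 1 = true := by simp [one]
theorem one_2 : one 2 = false := by simp [one]
theorem one_3 : one 3 = true := by simp [one]
theorem one_4 : one 4 = true := by simp [one]
theorem one_5 : one 5 = true := by simp [one]
theorem one_6 : one 6 = false := by simp [one]
theorem one_7 : one 7 = true := by simp [one]
theorem one_8 : one 8 = false := by simp [one]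

theorem lt_of_mul_lt {K t a : ℕ} (h : K * t < a * K) : t < a := by
  rw [mul_comm] at h
  exact lt_of_mul_lt_mul_right h (Nat.zero_le _)

theorem spec_agree {m n i i' : ℕ} (h : Spec m n i) (h' : Spec m n i') :
    Agree i i' n := by
  obtain ⟨q, r, hr, rfl, h⟩ := h
  obtain ⟨q', r', hr', rfl, h'⟩ := h'
  rcases h with ⟨a, b, c⟩ | ⟨a, b, c, d⟩
  · rcases h' with ⟨a', b', c'⟩ | ⟨a', b', c', d'⟩
    · obtain rfl : r = r' := by omega
      apply agree_of_types
      intro t ht
      have : t < 2 := by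
        apply lt_of_mul_lt (K := 7 * 3 ^ m)
        omega
      interval_cases t
      · simp [b, b']
      · rw [c, c']
    · omega
  · rcases h' with ⟨a', b', c'⟩ | ⟨a', b', c', d'⟩
    · omega
    · obtain rfl : r = r' := by omega
      apply agree_of_types
      intro t ht
      have : t < 3 := by
        apply lt_of_mul_lt (K := 7 * 3 ^ m)
        omega
      interval_cases t
      · simp [b, b']
      · rw [c, c']
      · rw [d, d']

theorem spec_nonD {m n i : ℕ} (hn : 7 * 3 ^ m < n) (h : Spec m n i) : NonD i n := by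
  obtain ⟨q, r, hr, rfl, h⟩ := h
  rw [nonD_iff hr hn]
  have := Kpos m
  rcases h with ⟨a, b, c⟩ | ⟨a, b, c, d⟩
  · exact ⟨0, by omega, by simpa using b⟩
  · exact ⟨1, by omega, c⟩

theorem spec_of_agree {m n i i' : ℕ} (hn : 7 * 3 ^ m < n) (h : Spec m n i)
    (ha : Agree i i' n) : Spec m n i' := by
  have hnd := spec_nonD hn h
  obtain ⟨q, r, hr, hi, h⟩ := h
  obtain ⟨q', hi'⟩ := same_offset hn hr hi ha hnd
  subst hi hi'
  have hty := fun t ht => types_of_agree hr hn ha t ht
  have hK := Kpos m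
  refine ⟨q', r, hr, rfl, ?_⟩
  rcases h with ⟨a, b, c⟩ | ⟨a, b, c, d⟩
  · left
    have t0 := hty 0 (by omega)
    have t1 := hty 1 (by omega)
    rw [add_zero, add_zero] at t0
    exact ⟨a, by rw [← t0, b], by rw [← t1, c]⟩
  · right
    have t0 := hty 0 (by omega)
    have t1 := hty 1 (by omega)
    have t2 := hty 2 (by omega)
    rw [add_zero, add_zero] at t0
    exact ⟨a, by rw [← t0, b], by rw [← t1, c], by rw [← t2, d]⟩

theorem spec_exists {m n : ℕ} (hn : 7 * 3 ^ m < n) (hn3 : n ≤ 3 * (7 * 3 ^ m)) :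
    (∃ i, Spec m n i ∧ u (i + n) = 0) ∧ (∃ i, Spec m n i ∧ u (i + n) = 3) := by
  have hK := Kpos m
  rcases le_or_gt n (2 * (7 * 3 ^ m)) with h | h
  · constructor
    · refine ⟨7 * 3 ^ m * 0 + (2 * (7 * 3 ^ m) - n), ⟨0, _, by omega, rfl,
        Or.inl ⟨by omega, one_zero, one_1⟩⟩, ?_⟩
      rw [show 7 * 3 ^ m * 0 + (2 * (7 * 3 ^ m) - n) + n = 7 * 3 ^ m * 2 by omega, u_block_zero,
        one_2]
      rfl
    · refine ⟨7 * 3 ^ m * 2 + (2 * (7 * 3 ^ m) - n), ⟨2, _, by omega, rfl,
        Or.inl ⟨by omega, one_2, one_3⟩⟩, ?_⟩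
      rw [show 7 * 3 ^ m * 2 + (2 * (7 * 3 ^ m) - n) + n = 7 * 3 ^ m * 4 by omega, u_block_zero,
        one_4]
      rfl
  · constructor
    · refine ⟨7 * 3 ^ m * 5 + (3 * (7 * 3 ^ m) - n), ⟨5, _, by omega, rfl,
        Or.inr ⟨by omega, one_5, one_6, one_7⟩⟩, ?_⟩
      rw [show 7 * 3 ^ m * 5 + (3 * (7 * 3 ^ m) - n) + n = 7 * 3 ^ m * 8 by omega, u_block_zero,
        one_8]
      rfl
    · refine ⟨7 * 3 ^ m * 1 + (3 * (7 * 3 ^ m) - n), ⟨1, _, by omega, rfl,
        Or.inr ⟨by omega, one_1, one_2, one_3⟩⟩, ?_⟩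
      rw [show 7 * 3 ^ m * 1 + (3 * (7 * 3 ^ m) - n) + n = 7 * 3 ^ m * 4 by omega, u_block_zero,
        one_4]
      rfl

theorem spec_next {m n i : ℕ} (h : Spec m n i) : u (i + n) = 0 ∨ u (i + n) = 3 := by
  obtain ⟨q, r, hr, rfl, h⟩ := h
  have key : ∃ t, 7 * 3 ^ m * q + r + n = 7 * 3 ^ m * (q + t) := by
    rcases h with ⟨a, b, c⟩ | ⟨a, b, c, d⟩
    · exact ⟨2, by rw [mul_add]; omega⟩
    · exact ⟨3, by rw [mul_add]; omega⟩
  obtain ⟨t, ht⟩ := key
  rw [ht, u_block_zero]
  split_ifs <;> simp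

theorem allD_next {n i : ℕ} (hn : 1 ≤ n) (h : ¬ NonD i n) : u (i + n) = 0 ∨ u (i + n) = 3 := by
  by_cases h3 : u (i + n) = 3
  · exact Or.inr h3
  · left
    have h1 : u (i + (n - 1)) = 3 := by
      by_contra hcon
      exact h ⟨n - 1, by omega, hcon⟩
    have hb := boundary (i + (n - 1)) (by
      rw [show i + (n - 1) + 1 = i + n by omega]
      simp [h1, h3])
    rw [show i + (n - 1) + 1 = i + n by omega] at hb
    have e : i + n = 7 * 3 ^ 0 * ((i + n) / 7) := by omega
    rw [e, u_block_zero] at h3 ⊢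
    split_ifs with h
    · rw [h] at h3; simp at h3
    · rfl

theorem allD_exists (n : ℕ) : ∃ i, ¬ NonD i n ∧ u (i + n) = 3 := by
  have h3 : n + 1 ≤ 7 * 3 ^ n := by
    have : n < 3 ^ n := Nat.lt_pow_self (by norm_num)
    omega
  have key : ∀ j, j < 7 * 3 ^ n → u (7 * 3 ^ n * 1 + j) = 3 := by
    intro j hj
    rw [u_block n 1 j hj, one_1]; rfl
  refine ⟨7 * 3 ^ n * 1, ?_, key n (by omega)⟩
  rintro ⟨j, hj, hne⟩
  exact hne (key j (by omega))

theorem allD_exists' (n : ℕ) : ∃ i, ¬ NonD i n ∧ u (i + n) = 0 := by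
  have h3 : n + 1 ≤ 7 * 3 ^ n := by
    have : n < 3 ^ n := Nat.lt_pow_self (by norm_num)
    omega
  have key : ∀ j, j < 7 * 3 ^ n → u (7 * 3 ^ n * 1 + j) = 3 := by
    intro j hj
    rw [u_block n 1 j hj, one_1]; rfl
  refine ⟨7 * 3 ^ n * 1 + (7 * 3 ^ n - n), ?_, ?_⟩
  · rintro ⟨j, hj, hne⟩
    apply hne
    rw [add_assoc]
    exact key _ (by omega)
  · rw [show 7 * 3 ^ n * 1 + (7 * 3 ^ n - n) + n = 7 * 3 ^ n * 2 by omega, u_block_zero, one_2]
    rfl

theorem allD_agree {n i i' : ℕ} (h : ¬ NonD i n) (h' : ¬ NonD i' n) : Agree i i' n := by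
  intro j hj
  have h1 : u (i + j) = 3 := by
    by_contra hcon
    exact h ⟨j, hj, hcon⟩
  have h2 : u (i' + j) = 3 := by
    by_contra hcon
    exact h' ⟨j, hj, hcon⟩
  rw [h1, h2]

theorem nonD_of_agree {n i i' : ℕ} (h : NonD i n) (ha : Agree i i' n) : NonD i' n := by
  obtain ⟨j, hj, hne⟩ := h
  exact ⟨j, hj, by rw [← ha j hj]; exact hne⟩

theorem agree_symm {n i i' : ℕ} (ha : Agree i i' n) : Agree i' i n := fun j hj => (ha j hj).symm

open Classical in
/-- the set of possible right extensions of the window -/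
noncomputable def ext (i n : ℕ) : Finset (Fin 4) :=
  Finset.univ.filter fun s => ∃ i', Agree i i' n ∧ u (i' + n) = s

theorem ext_card_one {m n i : ℕ} (hn : 7 * 3 ^ m < n) (hn3 : n ≤ 3 * (7 * 3 ^ m))
    (hd : NonD i n) (hs : ¬ Spec m n i) : (ext i n).card = 1 := by
  rw [Finset.card_eq_one]
  refine ⟨u (i + n), ?_⟩
  ext s
  simp only [ext, Finset.mem_filter, Finset.mem_univ, true_and, Finset.mem_singleton]
  constructor
  · rintro ⟨i', ha, rfl⟩
    exact ext_unique hn hn3 hd hs ha
  · rintro rfl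
    exact ⟨i, fun _ _ => rfl, rfl⟩

theorem ext_card_two {n i : ℕ} (h0 : ∃ i', Agree i i' n ∧ u (i' + n) = 0)
    (h3 : ∃ i', Agree i i' n ∧ u (i' + n) = 3)
    (hall : ∀ i', Agree i i' n → u (i' + n) = 0 ∨ u (i' + n) = 3) : (ext i n).card = 2 := by
  have : ext i n = {0, 3} := by
    ext s
    simp only [ext, Finset.mem_filter, Finset.mem_univ, true_and, Finset.mem_insert,
      Finset.mem_singleton]
    constructor
    · rintro ⟨i', ha, rfl⟩
      exact hall i' ha
    · rintro (rfl | rfl)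
      · exact h0
      · exact h3
  rw [this]; rfl

theorem finite_windows (n : ℕ) : (Set.range (fun i => win u i n)).Finite :=
  (List.finite_length_eq (Fin 4) n).subset (by rintro _ ⟨i, rfl⟩; exact win_length u i n)

theorem cplx_eq (n : ℕ) : cplx u n = (finite_windows n).toFinset.card := by
  unfold cplx
  rw [lang_length, Set.ncard_eq_toFinset_card _ (finite_windows n)]

theorem card_fiber (i n : ℕ) :
    ((finite_windows (n + 1)).toFinset.filter (fun y => y.take n = win u i n)).card =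
      (ext i n).card := by
  classical
  have : (finite_windows (n + 1)).toFinset.filter (fun y => y.take n = win u i n) =
      (ext i n).image (fun s => win u i n ++ [s]) := by
    ext y
    simp only [Finset.mem_filter, Set.Finite.mem_toFinset, Set.mem_range, Finset.mem_image, ext,
      Finset.mem_univ, true_and]
    constructor
    · rintro ⟨⟨i', rfl⟩, h⟩
      rw [win_succ, List.take_left' (win_length u i' n)] at h
      refine ⟨u (i' + n), ⟨i', ?_, rfl⟩, ?_⟩
      · exact agree_symm (win_eq_iff.1 h)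
      · rw [win_succ, h]
    · rintro ⟨s, ⟨i', ha, rfl⟩, rfl⟩
      have e : win u i n = win u i' n := win_eq_iff.2 ha
      refine ⟨⟨i', ?_⟩, ?_⟩
      · rw [win_succ, e]
      · rw [List.take_left' (win_length u i n)]
  rw [this, Finset.card_image_of_injective]
  intro s s' h
  simpa using h

theorem count_succ (n : ℕ) (hn : 8 ≤ n) : cplx u (n + 1) = cplx u n + 2 := by
  classical
  obtain ⟨m, hm, hm3⟩ := level n hn
  obtain ⟨⟨i2, hs2, hu2⟩, ⟨i2', hs2', hu2'⟩⟩ := spec_exists hm hm3
  obtain ⟨i1, hd1, hu1⟩ := allD_exists n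
  obtain ⟨i1', hd1', hu1'⟩ := allD_exists' n
  rw [cplx_eq, cplx_eq]
  have hmaps : Set.MapsTo (List.take n) ((finite_windows (n + 1)).toFinset : Set (List (Fin 4)))
      ((finite_windows n).toFinset : Set (List (Fin 4))) := by
    intro y hy
    rw [Finset.mem_coe, Set.Finite.mem_toFinset] at hy
    obtain ⟨i, rfl⟩ := hy
    rw [Finset.mem_coe, Set.Finite.mem_toFinset]
    refine ⟨i, ?_⟩
    simp only [win_succ]
    rw [List.take_left' (win_length u i n)]
  rw [Finset.card_eq_sum_card_fiberwise hmaps]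
  have hne : win u i1 n ≠ win u i2 n := by
    intro h
    exact hd1 (nonD_of_agree (spec_nonD hm hs2) (agree_symm (win_eq_iff.1 h)))
  have hterm : ∀ w ∈ (finite_windows n).toFinset,
      ((finite_windows (n + 1)).toFinset.filter (fun y => y.take n = w)).card =
        1 + ((if w = win u i1 n then 1 else 0) + (if w = win u i2 n then 1 else 0)) := by
    intro w hw
    rw [Set.Finite.mem_toFinset] at hw
    obtain ⟨i, rfl⟩ := hw
    simp only
    rw [card_fiber]
    by_cases h1 : NonD i n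
    · have e1 : win u i n ≠ win u i1 n := by
        intro h
        exact hd1 (nonD_of_agree h1 (win_eq_iff.1 h))
      rw [if_neg e1]
      by_cases h2 : Spec m n i
      · have e2 : win u i n = win u i2 n := win_eq_iff.2 (spec_agree h2 hs2)
        rw [if_pos e2]
        refine ext_card_two ⟨i2, spec_agree h2 hs2, hu2⟩ ⟨i2', spec_agree h2 hs2', hu2'⟩ ?_
        intro i' ha
        exact spec_next (spec_of_agree hm h2 ha)
      · have e2 : win u i n ≠ win u i2 n := by
          intro h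
          exact h2 (spec_of_agree hm hs2 (agree_symm (win_eq_iff.1 h)))
        rw [if_neg e2]
        exact ext_card_one hm hm3 h1 h2
    · have e1 : win u i n = win u i1 n := win_eq_iff.2 (allD_agree h1 hd1)
      have e2 : win u i n ≠ win u i2 n := by rw [e1]; exact hne
      rw [if_pos e1, if_neg e2]
      refine ext_card_two ⟨i1', allD_agree h1 hd1', hu1'⟩ ⟨i1, allD_agree h1 hd1, hu1⟩ ?_
      intro i' ha
      refine allD_next (by omega) ?_
      intro h
      exact h1 (nonD_of_agree h (agree_symm ha))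
  rw [Finset.sum_congr rfl hterm, Finset.sum_add_distrib, Finset.sum_add_distrib,
    Finset.sum_ite_eq', Finset.sum_ite_eq', if_pos, if_pos]
  · simp
  · rw [Set.Finite.mem_toFinset]; exact ⟨i2, rfl⟩
  · rw [Set.Finite.mem_toFinset]; exact ⟨i1, rfl⟩

end Pool.Agent.Lib_helper63.Pal
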