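import Mathlib

/-!
Definitions for MP_18fb49_co: factors, palindromes, the function `T`, longest palindromic
suffixes, defect.
-/

namespace Pool.Agent.Lib_helper63.Pal

/-- The factor of length `n` of the infinite word `u` starting at position `i`. -/
def win {α : Type*} (u : ℕ → α) (i n : ℕ) : List α := (List.range n).map fun j => u (i + j)

/-- The language of `u`: the set of its finite factors (the empty word included). -/
def lang {α : Type*} (u : ℕ → α) : Set (List α) := {w | ∃ i n, w = win u i n}

/-- A palindrome: a word equal to its reversal. -/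
def IsPal {α : Type*} (w : List α) : Prop := w.reverse = w

/-- Factor complexity: the number of factors of length `n`. -/
noncomputable def cplx {α : Type*} (u : ℕ → α) (n : ℕ) : ℕ :=
  {w | w ∈ lang u ∧ w.length = n}.ncard

/-- Palindromic complexity: the number of palindromic factors of length `n`. -/
noncomputable def palCplx {α : Type*} (u : ℕ → α) (n : ℕ) : ℕ :=
  {w | w ∈ lang u ∧ w.length = n ∧ IsPal w}.ncard

/-- `T u n = C(n+1) - C(n) + 2 - P(n+1) - P(n)`. -/
noncomputable def T {α : Type*} (u : ℕ → α) (n : ℕ) : ℤ :=
  cplx u (n + 1) - cplx u n + 2 - palCplx u (n + 1) - palCplx u n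

/-- `p` is the longest palindromic suffix of `f`. -/
def IsLPS {α : Type*} (p f : List α) : Prop :=
  p <:+ f ∧ IsPal p ∧ ∀ q, q <:+ f → IsPal q → q.length ≤ p.length

/-- `p` occurs exactly once in `f`. -/
def Unioccurrent {α : Type*} (p f : List α) : Prop :=
  ∃! s : List α × List α, s.1 ++ p ++ s.2 = f

/-- The defect `|w| + 1 - p(w)` of a finite word `w`, where `p(w)` is the number of distinct
palindromic factors of `w`, the empty word included. -/
noncomputable def defect {α : Type*} (w : List α) : ℤ :=
  (w.length : ℤ) + 1 - ({p | p <:+: w ∧ IsPal p}.ncard : ℤ)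

end Pool.Agent.Lib_helper63.Pal
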