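import Pool.Agent.Lib_helper63.Pal.PalCount

/-! Infinitely many palindromes, no bound `H`, defect at most one. -/

namespace Pool.Agent.Lib_helper63.Pal

theorem inf_pal : {w | w ∈ lang u ∧ IsPal w}.Infinite := by
  choose i hi _ using allD_exists
  refine Set.infinite_of_injective_forall_mem (f := fun n => win u (i n) n) ?_ ?_
  · intro a b hab
    have := congrArg List.length hab
    simpa [win_length] using this
  · intro n
    exact ⟨⟨i n, n, rfl⟩, allD_pal (hi n)⟩

theorem u_small (j : ℕ) (hj : j < 7) : u j = blk ⟨j, hj⟩ := by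
  unfold u
  have h1 : j / 7 = 0 := by omega
  have h2 : j % 7 = j := by omega
  simp only [h1, one_zero, h2]
  rfl

theorem bad_factor (m : ℕ) :
    win u (7 * 3 ^ m) (7 * 3 ^ m + 4) = List.replicate (7 * 3 ^ m) 3 ++ [0, 1, 2, 0] := by
  have hK := Kpos m
  have hK7 : 7 ≤ 7 * 3 ^ m := by
    have : 1 ≤ 3 ^ m := Nat.one_le_pow _ _ (by norm_num)
    omega
  apply List.ext_getElem
  · simp [win_length]
  · intro j h1 h2
    rw [win_length] at h1
    simp only [win, List.getElem_map, List.getElem_range]
    rcases lt_or_ge j (7 * 3 ^ m) with h | h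
    · rw [List.getElem_append_left (by simpa using h)]
      have := u_block m 1 j h
      rw [mul_one, one_1] at this
      rw [this]
      simp
    · rw [List.getElem_append_right (by simpa using h)]
      simp only [List.length_replicate]
      obtain ⟨s, hs⟩ : ∃ s, j = 7 * 3 ^ m + s := ⟨j - 7 * 3 ^ m, by omega⟩
      subst hs
      have h4 : s < 4 := by omega
      have := u_block m 2 s (by omega)
      rw [one_2] at this
      rw [show 7 * 3 ^ m + (7 * 3 ^ m + s) = 7 * 3 ^ m * 2 + s by omega, this]
      simp only [Nat.add_sub_cancel_left]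
      rw [u_small s (by omega)]
      interval_cases s <;> rfl

theorem lps_bad (K : ℕ) :
    IsLPS ([0] : List (Fin 4)) (List.replicate K 3 ++ [0, 1, 2, 0]) := by
  refine ⟨⟨List.replicate K 3 ++ [0, 1, 2], by simp⟩, rfl, ?_⟩
  rintro q ⟨t, ht⟩ hp
  unfold IsPal at hp
  by_contra hlen
  simp only [List.length_cons, List.length_nil, zero_add, not_le] at hlen
  have h1 := congrArg List.reverse ht
  rw [List.reverse_append, hp, List.reverse_append] at h1
  simp only [List.reverse_replicate, List.reverse_cons, List.reverse_nil, List.nil_append,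
    List.cons_append] at h1
  -- h1 : q ++ t.reverse = 0 :: 2 :: 1 :: 0 :: replicate K 3
  match q, hp, hlen, h1 with
  | [a, b], hp, _, h1 =>
    simp at h1 hp
    obtain ⟨rfl, rfl, _⟩ := h1
    simp at hp
  | [a, b, c], hp, _, h1 =>
    simp at h1 hp
    obtain ⟨rfl, rfl, rfl, _⟩ := h1
    simp at hp
  | [a, b, c, d], hp, _, h1 =>
    simp at h1 hp
    obtain ⟨rfl, rfl, rfl, rfl, _⟩ := h1
    simp at hp
  | a :: b :: c :: d :: e :: q', hp, _, h1 =>
    simp only [List.cons_append, List.cons.injEq] at h1
    obtain ⟨rfl, rfl, rfl, rfl, h1⟩ := h1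
    -- last element of the palindrome is 0, but it lies among the 3s
    have h2 : (e :: q').getLast (by simp) = 0 := by
      have h3 : ((0 : Fin 4) :: 2 :: 1 :: 0 :: e :: q').getLast (by simp) =
          ((0 : Fin 4) :: 2 :: 1 :: 0 :: e :: q').head (by simp) := by
        have h4 := List.head_reverse (l := (0 : Fin 4) :: 2 :: 1 :: 0 :: e :: q') (by simp)
        simp only [hp] at h4
        exact h4.symm
      simpa using h3
    have h5 : (e :: q').getLast (by simp) ∈ e :: q' := List.getLast_mem _
    rw [h2] at h5
    have h6 : (0 : Fin 4) ∈ List.replicate K (3 : Fin 4) := by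
      rw [← h1]
      simp only [List.mem_cons, List.mem_append] at h5 ⊢
      rcases h5 with h5 | h5
      · exact Or.inl h5
      · exact Or.inr (Or.inl h5)
    exact absurd (List.eq_of_mem_replicate h6) (by decide)

theorem not_uni (K : ℕ) :
    ¬ Unioccurrent ([0] : List (Fin 4)) (List.replicate K 3 ++ [0, 1, 2, 0]) := by
  rintro ⟨s, _, hs⟩
  have h1 := hs (List.replicate K 3, [1, 2, 0]) (by simp)
  have h2 := hs (List.replicate K 3 ++ [0, 1, 2], []) (by simp)
  rw [← h2] at h1
  simp at h1

theorem no_H : ¬ ∃ H : ℕ, ∀ f ∈ lang u, H ≤ f.length → ∀ p, IsLPS p f → Unioccurrent p f := by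
  rintro ⟨H, hH⟩
  have hbig : H ≤ 7 * 3 ^ H := by
    have : H < 3 ^ H := Nat.lt_pow_self (by norm_num)
    omega
  have h := hH (win u (7 * 3 ^ H) (7 * 3 ^ H + 4)) ⟨_, _, rfl⟩ (by rw [win_length]; omega) [0]
  rw [bad_factor] at h
  exact not_uni _ (h (lps_bad _))

/-! ### defect -/

/-- the palindromic factors of `w` -/
def palset (w : List (Fin 4)) : Set (List (Fin 4)) := {p | p <:+: w ∧ IsPal p}

theorem palset_finite (w : List (Fin 4)) : (palset w).Finite := by
  refine (List.finite_toSet w.sublists).subset ?_
  rintro p ⟨h, _⟩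
  exact List.mem_sublists.2 h.sublist

theorem palset_card (w : List (Fin 4)) : (palset w).ncard =
    ((w.tails.flatMap List.inits).toFinset.filter (fun p => p.reverse = p)).card := by
  rw [← Set.ncard_coe_finset]
  congr 1
  ext p
  simp only [palset, Set.mem_ofPred_eq, Finset.coe_filter, List.mem_toFinset, List.mem_flatMap,
    List.mem_tails, List.mem_inits, List.infix_iff_prefix_suffix, IsPal]
  constructor
  · rintro ⟨⟨t, h1, h2⟩, h3⟩
    exact ⟨⟨t, h2, h1⟩, h3⟩
  · rintro ⟨⟨t, h1, h2⟩, h3⟩
    exact ⟨⟨t, h2, h1⟩, h3⟩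

theorem infix_win (w : List (Fin 4)) (n : ℕ) :
    w <:+: win u 0 n ↔ ∃ y, y + w.length ≤ n ∧ w = win u y w.length := by
  constructor
  · rintro ⟨s, t, h⟩
    have hl := congrArg List.length h
    rw [win_length] at hl
    simp only [List.length_append] at hl
    refine ⟨s.length, by omega, ?_⟩
    apply List.ext_getElem
    · rw [win_length]
    · intro j h1 h2
      have h3 : (s ++ w ++ t)[s.length + j]'(by simp; omega) = w[j] := by
        rw [List.getElem_append_left (by simp; omega), List.getElem_append_right (by omega)]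
        congr 1
        omega
      rw [← h3]
      simp only [h]
      simp [win]
  · rintro ⟨y, hy, hw⟩
    refine ⟨win u 0 y, win u (y + w.length) (n - y - w.length), ?_⟩
    apply List.ext_getElem
    · simp only [List.length_append, win_length]; omega
    · intro j h1 h2
      rw [win_length] at h2
      rcases lt_or_ge j (y + w.length) with h | h
      · rw [List.getElem_append_left (by simp only [List.length_append, win_length]; omega)]
        rcases lt_or_ge j y with h' | h'
        · rw [List.getElem_append_left (by simp only [win_length]; omega)]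
          simp [win]
        · rw [List.getElem_append_right (by simp only [win_length]; omega)]
          have : ∀ (a : ℕ) (ha : a < w.length), w[a] = u (y + a) := by
            intro a ha
            have : w[a] = (win u y w.length)[a]'(by rw [win_length]; exact ha) := by
              congr 1
            rw [this]; simp [win]
          rw [this]
          simp only [win_length]
          simp [win]
          congr 1
          omega
      · rw [List.getElem_append_right (by simp only [List.length_append, win_length]; omega)]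
        simp only [List.length_append, win_length]
        simp [win]
        congr 1
        omega

theorem new_pal (n : ℕ) (hn : 7 ≤ n) :
    ∃ y k, y + k ≤ n + 1 ∧ IsPal (win u y k) ∧ ∀ y', y' + k ≤ n → ¬ Agree y y' k := by
  obtain ⟨m, hm, hm3⟩ : ∃ m, 7 * 3 ^ m ≤ n ∧ n < 3 * (7 * 3 ^ m) := by
    obtain ⟨m, h1, h2⟩ := level (n + 1) (by omega)
    exact ⟨m, by omega, by omega⟩
  have hK := Kpos m
  rcases le_or_gt (2 * (7 * 3 ^ m)) n with h2 | h2
  · -- third block
    obtain ⟨s, hs⟩ : ∃ s, n + 1 = 2 * (7 * 3 ^ m) + s := ⟨n + 1 - 2 * (7 * 3 ^ m), by omega⟩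
    have e3 : 7 * 3 ^ (m + 1) = 3 * (7 * 3 ^ m) := by ring
    refine ⟨7 * 3 ^ m - s, 7 * 3 ^ m + 2 * s, by omega, ?_, ?_⟩
    · rw [pal_agree (M := m + 1) (by rw [e3]; omega), e3]
      rw [show 3 * (7 * 3 ^ m) - (7 * 3 ^ m - s) - (7 * 3 ^ m + 2 * s) = 7 * 3 ^ m - s by omega]
      exact fun _ _ => rfl
    · intro y' hy' ha
      have hd : NonD (7 * 3 ^ m * 0 + (7 * 3 ^ m - s)) (7 * 3 ^ m + 2 * s) :=
        (nonD_iff (by omega) (by omega)).2 ⟨0, by omega, one_zero⟩
      rw [mul_zero, zero_add] at hd
      have hmod := sync (m := m) (by omega) ha hd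
      unfold Nat.ModEq at hmod
      rw [Nat.mod_eq_of_lt (by omega), Nat.mod_eq_of_lt (by omega)] at hmod
      omega
  · obtain ⟨j, hj⟩ : ∃ j, n + 1 = 7 * 3 ^ m + j := ⟨n + 1 - 7 * 3 ^ m, by omega⟩
    have allD : ∀ a, a + 1 ≤ 7 * 3 ^ m → u (7 * 3 ^ m + a) = 3 := by
      intro a ha
      have := u_block m 1 a (by omega)
      rw [mul_one, one_1] at this
      exact this
    have runcase : (∀ y, y < 7 * 3 ^ m → ∃ z, y ≤ z ∧ z < y + j ∧ u z ≠ 3) →
        ∃ y k, y + k ≤ n + 1 ∧ IsPal (win u y k) ∧ ∀ y', y' + k ≤ n → ¬ Agree y y' k := by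
      intro hrun
      refine ⟨7 * 3 ^ m, j, by omega, ?_, ?_⟩
      · apply allD_pal
        rintro ⟨a, ha, hne⟩
        exact hne (allD a (by omega))
      · intro y' hy' ha
        obtain ⟨z, hz1, hz2, hz3⟩ := hrun y' (by omega)
        have := ha (z - y') (by omega)
        rw [allD _ (by omega), show y' + (z - y') = z by omega] at this
        exact hz3 this.symm
    rcases Nat.eq_zero_or_pos m with hm0 | hm0
    · subst hm0
      apply runcase
      intro y hy
      refine ⟨y, le_rfl, by omega, ?_⟩
      rw [u_small y (by simpa using hy)]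
      exact blk_ne _
    · obtain ⟨k, rfl⟩ : ∃ k, m = k + 1 := ⟨m - 1, by omega⟩
      have e3 : 7 * 3 ^ (k + 1) = 3 * (7 * 3 ^ k) := by ring
      rw [e3] at hj hm hm3 h2 allD runcase
      have hK' := Kpos k
      rcases le_or_gt j (7 * 3 ^ k) with hjk | hjk
      · have e9 : 7 * 3 ^ (k + 2) = 9 * (7 * 3 ^ k) := by ring
        refine ⟨7 * 3 ^ k * 1 + (7 * 3 ^ k - j), 7 * 3 ^ k + 2 * j, by omega, ?_, ?_⟩
        · rw [pal_agree (M := k + 2) (by rw [e9]; omega), e9]
          rw [show 9 * (7 * 3 ^ k) - (7 * 3 ^ k * 1 + (7 * 3 ^ k - j)) - (7 * 3 ^ k + 2 * j) =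
            7 * 3 ^ k * 5 + (7 * 3 ^ k - j) by omega]
          apply agree_of_types
          intro t ht
          have htt : t < 3 := by
            apply lt_of_mul_lt (K := 7 * 3 ^ k)
            omega
          interval_cases t
          · exact one_1.trans one_5.symm
          · exact one_2.trans one_6.symm
          · exact one_3.trans one_7.symm
        · intro y' hy' ha
          have hd : NonD (7 * 3 ^ k * 1 + (7 * 3 ^ k - j)) (7 * 3 ^ k + 2 * j) :=
            (nonD_iff (by omega) (by omega)).2 ⟨1, by omega, one_2⟩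
          obtain ⟨q', hq'⟩ := same_offset (m := k) (by omega) (by omega) rfl ha hd
          subst hq'
          have hq0 : q' = 0 := by
            by_contra hcon
            have h1 : 1 ≤ q' := Nat.one_le_iff_ne_zero.2 hcon
            have : 7 * 3 ^ k * 1 ≤ 7 * 3 ^ k * q' := Nat.mul_le_mul_left _ h1
            omega
          subst hq0
          have := types_of_agree (m := k) (by omega) (by omega) ha 0 (by omega)
          rw [add_zero, add_zero, one_1, one_zero] at this
          exact absurd this (by simp)
      · apply runcase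
        intro y hy
        have z1 : u (7 * 3 ^ k - 1) ≠ 3 := by rw [u_last]; decide
        have z2 : u (7 * 3 ^ k * 2) ≠ 3 := by
          rw [u_block_zero, one_2]; decide
        have z3 : u (3 * (7 * 3 ^ k) - 1) ≠ 3 := by
          rw [← e3, u_last]; decide
        rcases le_or_gt y (7 * 3 ^ k - 1) with h | h
        · exact ⟨7 * 3 ^ k - 1, h, by omega, z1⟩
        · rcases le_or_gt y (7 * 3 ^ k * 2) with h' | h'
          · exact ⟨7 * 3 ^ k * 2, h', by omega, z2⟩
          · exact ⟨3 * (7 * 3 ^ k) - 1, by omega, by omega, z3⟩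

theorem palset_step (n : ℕ) (hn : 7 ≤ n) :
    (palset (win u 0 n)).ncard + 1 ≤ (palset (win u 0 (n + 1))).ncard := by
  obtain ⟨y, k, h1, h2, h3⟩ := new_pal n hn
  apply Set.ncard_lt_ncard _ (palset_finite _)
  rw [Set.ssubset_iff_of_subset]
  · refine ⟨win u y k, ⟨?_, h2⟩, ?_⟩
    · rw [infix_win]
      exact ⟨y, by rw [win_length]; exact h1, by rw [win_length]⟩
    · rintro ⟨h, _⟩
      rw [infix_win] at h
      obtain ⟨y', hy', he⟩ := h
      rw [win_length] at hy' he
      exact h3 y' hy' (win_eq_iff.1 he)
  · rintro p ⟨h, hp⟩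
    refine ⟨?_, hp⟩
    rw [infix_win] at h ⊢
    obtain ⟨y, hy, he⟩ := h
    exact ⟨y, by omega, he⟩

theorem palset_small (n : ℕ) (hn : n ≤ 7) : n ≤ (palset (win u 0 n)).ncard := by
  have hw : win u 0 n = ([0, 1, 2, 0, 2, 1, 0] : List (Fin 4)).take n := by
    apply List.ext_getElem
    · simp [win_length, hn]
    · intro j h1 h2
      rw [win_length] at h1
      simp only [win, List.getElem_map, List.getElem_range, zero_add, List.getElem_take]
      rw [u_small j (by omega)]
      have : j < 7 := by omega
      interval_cases j <;> rfl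
  rw [hw, palset_card]
  interval_cases n <;> decide

theorem palset_ge (n : ℕ) : n ≤ (palset (win u 0 n)).ncard := by
  rcases le_or_gt n 7 with h | h
  · exact palset_small n h
  · induction n, h.le using Nat.le_induction with
    | base => exact palset_small 7 le_rfl
    | succ n hn ih =>
      rcases Nat.lt_or_ge 7 n with h' | h'
      · have := palset_step n hn
        have := ih h'
        omega
      · have e : n = 7 := by omega
        subst e
        have := palset_step 7 le_rfl
        have := palset_small 7 le_rfl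
        omega

theorem defect_le (n : ℕ) : defect (win u 0 n) ≤ 1 := by
  unfold defect
  rw [win_length]
  have : ({p | p <:+: win u 0 n ∧ IsPal p} : Set (List (Fin 4))).ncard =
    (palset (win u 0 n)).ncard := rfl
  rw [this]
  have := palset_ge n
  omega

end Pool.Agent.Lib_helper63.Pal
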