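import Pool.Agent.Lib_helper63.Pal.Count2

/-! Counting palindromes. -/

namespace Pool.Agent.Lib_helper63.Pal

theorem rev_win (i n M : ℕ) (h : i + n ≤ 7 * 3 ^ M) :
    (win u i n).reverse = win u (7 * 3 ^ M - i - n) n := by
  apply List.ext_getElem
  · simp [win_length]
  · intro j h1 h2
    rw [win_length] at h2
    rw [List.getElem_reverse]
    simp only [win, List.length_map, List.length_range, List.getElem_map, List.getElem_range]
    rw [← u_symm M (7 * 3 ^ M - i - n + j) (by omega)]
    congr 1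
    omega

theorem big (i n m : ℕ) : ∃ M, m ≤ M ∧ i + n ≤ 7 * 3 ^ M := by
  refine ⟨i + n + m, by omega, ?_⟩
  have : i + n + m < 3 ^ (i + n + m) := Nat.lt_pow_self (by norm_num)
  omega

theorem closed_rev (w : List (Fin 4)) (hw : w ∈ lang u) : w.reverse ∈ lang u := by
  obtain ⟨i, n, rfl⟩ := hw
  obtain ⟨M, -, hM⟩ := big i n 0
  exact ⟨_, n, rev_win i n M hM⟩

theorem pal_letters {i n : ℕ} (h : IsPal (win u i n)) (j : ℕ) (hj : j < n) :
    u (i + j) = u (i + (n - 1 - j)) := by
  unfold IsPal at h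
  have h1 : (win u i n).reverse[j]'(by simp [win_length, hj]) =
      (win u i n)[j]'(by simp [win_length, hj]) := by
    simp only [h]
  rw [List.getElem_reverse] at h1
  simp only [win, List.length_map, List.length_range, List.getElem_map, List.getElem_range] at h1
  exact h1.symm

theorem pal_agree {i n M : ℕ} (hM : i + n ≤ 7 * 3 ^ M) :
    IsPal (win u i n) ↔ Agree i (7 * 3 ^ M - i - n) n := by
  unfold IsPal
  rw [rev_win i n M hM, win_eq_iff]
  exact ⟨fun h j hj => (h j hj).symm, fun h j hj => (h j hj).symm⟩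

theorem pal_offset {m q r n : ℕ} (hr : r < 7 * 3 ^ m) (hn : 7 * 3 ^ m < n)
    (hn3 : n ≤ 3 * (7 * 3 ^ m))
    (hd : NonD (7 * 3 ^ m * q + r) n) (hp : IsPal (win u (7 * 3 ^ m * q + r) n)) :
    2 * r + n = 3 * (7 * 3 ^ m) ∧ one q = one (q + 2) := by
  obtain ⟨M, hmM, hM⟩ := big (7 * 3 ^ m * q + r) n m
  have ha := (pal_agree hM).1 hp
  have hs := sync hn ha hd
  have hdvd : 7 * 3 ^ m ∣ 7 * 3 ^ M := Nat.mul_dvd_mul_left _ (pow_dvd_pow 3 hmM)
  have hK := Kpos m
  have hc : ∃ c, 2 * r + n = 7 * 3 ^ m * c := by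
    have h1 := (Nat.modEq_iff_dvd).1 hs
    have h2 : ((7 * 3 ^ M - (7 * 3 ^ m * q + r) - n : ℕ) : ℤ) =
        (7 * 3 ^ M : ℕ) - (7 * 3 ^ m * q + r : ℕ) - (n : ℤ) := by omega
    rw [h2] at h1
    have h3 : ((7 * 3 ^ m : ℕ) : ℤ) ∣ ((7 * 3 ^ M : ℕ) : ℤ) := by exact_mod_cast hdvd
    have h4 : ((7 * 3 ^ m : ℕ) : ℤ) ∣ ((2 * r + n : ℕ) : ℤ) := by
      have h5 : ((2 * r + n : ℕ) : ℤ) = ((7 * 3 ^ M : ℕ) : ℤ) -
          (((7 * 3 ^ M : ℕ) : ℤ) - (7 * 3 ^ m * q + r : ℕ) - (n : ℤ) - (7 * 3 ^ m * q + r : ℕ))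
          - ((7 * 3 ^ m : ℕ) : ℤ) * (2 * (q : ℤ)) := by push_cast; ring
      rw [h5]
      exact dvd_sub (dvd_sub h3 h1) (dvd_mul_right _ _)
    exact Int.natCast_dvd_natCast.1 h4
  obtain ⟨c, hc⟩ := hc
  have hc1 : 1 < c := by
    by_contra hcon
    push Not at hcon
    have : 7 * 3 ^ m * c ≤ 7 * 3 ^ m * 1 := Nat.mul_le_mul_left _ hcon
    omega
  have hc5 : c < 5 := by
    apply lt_of_mul_lt (K := 7 * 3 ^ m)
    omega
  obtain ⟨t, ht, hone⟩ := (nonD_iff hr hn).1 hd
  have eqs : ∀ a b, a < n → n - 1 - a = b → ∀ s s', 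
      7 * 3 ^ m * q + r + a = 7 * 3 ^ m * (q + s) + (7 * 3 ^ m - 1) →
      7 * 3 ^ m * q + r + b = 7 * 3 ^ m * (q + s') → one (q + s) = one (q + s') := by
    intro a b hab hb s s' e1 e2
    have h := pal_letters hp a hab
    rw [hb, e1, e2, u_block_last, u_block_zero] at h
    cases h1 : one (q + s) <;> cases h2 : one (q + s') <;> simp_all
  interval_cases c
  · exfalso
    have h01 := eqs (7 * 3 ^ m - 1 - r) (7 * 3 ^ m - r) (by omega) (by omega) 0 1
      (by rw [add_zero]; omega) (by rw [mul_add]; omega)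
    rw [add_zero] at h01
    have hs := one_succ q
    rw [← h01, or_self] at hs
    have htt : t < 2 := by
      apply lt_of_mul_lt (K := 7 * 3 ^ m)
      omega
    interval_cases t
    · rw [add_zero, hs] at hone; exact absurd hone (by simp)
    · rw [← h01, hs] at hone; exact absurd hone (by simp)
  · have h02 := eqs (7 * 3 ^ m - 1 - r) (2 * (7 * 3 ^ m) - r) (by omega) (by omega) 0 2
      (by rw [add_zero]; omega) (by rw [mul_add]; omega)
    rw [add_zero] at h02
    exact ⟨by omega, h02⟩
  · exfalso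
    have h03 := eqs (7 * 3 ^ m - 1 - r) (3 * (7 * 3 ^ m) - r) (by omega) (by omega) 0 3
      (by rw [add_zero]; omega) (by rw [mul_add]; omega)
    have h12 := eqs (2 * (7 * 3 ^ m) - 1 - r) (2 * (7 * 3 ^ m) - r) (by omega) (by omega) 1 2
      (by rw [mul_add]; omega) (by rw [mul_add]; omega)
    rw [add_zero] at h03
    have hs := one_succ (q + 1)
    rw [show q + 1 + 1 = q + 2 by ring, ← h12, or_self] at hs
    have hq : one q = true := by
      by_contra hcon
      rw [Bool.not_eq_true] at hcon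
      have := one_four q hcon hs (by rw [← h12]; exact hs)
      rw [← h03, hcon] at this
      exact absurd this (by simp)
    have htt : t < 4 := by
      apply lt_of_mul_lt (K := 7 * 3 ^ m)
      omega
    interval_cases t
    · rw [add_zero, hq] at hone; exact absurd hone (by simp)
    · rw [hs] at hone; exact absurd hone (by simp)
    · rw [← h12, hs] at hone; exact absurd hone (by simp)
    · rw [← h03, hq] at hone; exact absurd hone (by simp)

theorem odd_K (m : ℕ) : (7 * 3 ^ m) % 2 = 1 := by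
  have : Odd (7 * 3 ^ m) := Odd.mul (by decide) (Odd.pow (by decide))
  exact Nat.odd_iff.1 this

theorem allD_pal {i n : ℕ} (h : ¬ NonD i n) : IsPal (win u i n) := by
  obtain ⟨M, -, hM⟩ := big i n 0
  rw [pal_agree hM]
  apply allD_agree h
  have key : ∀ j < n, u (i + j) = 3 := by
    intro j hj
    by_contra hcon
    exact h ⟨j, hj, hcon⟩
  rintro ⟨j, hj, hne⟩
  apply hne
  rw [← u_symm M _ (by omega), ← key (n - 1 - j) (by omega)]
  congr 1
  omega

theorem palset_eq (n : ℕ) : {w | w ∈ lang u ∧ w.length = n ∧ IsPal w} =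
    {w | ∃ i, w = win u i n ∧ IsPal w} := by
  ext w
  simp only [Set.mem_ofPred_eq]
  constructor
  · rintro ⟨⟨i, k, rfl⟩, hk, hp⟩
    rw [win_length] at hk
    subst hk
    exact ⟨i, rfl, hp⟩
  · rintro ⟨i, rfl, hp⟩
    exact ⟨⟨i, n, rfl⟩, win_length _ _ _, hp⟩

theorem palCplx_even {n : ℕ} (hn : 8 ≤ n) (he : n % 2 = 0) : palCplx u n = 1 := by
  obtain ⟨m, hm, hm3⟩ := level n hn
  obtain ⟨i1, hd1, -⟩ := allD_exists n
  unfold palCplx
  rw [palset_eq, Set.ncard_eq_one]
  refine ⟨win u i1 n, ?_⟩
  ext w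
  simp only [Set.mem_ofPred_eq, Set.mem_singleton_iff]
  constructor
  · rintro ⟨i, rfl, hp⟩
    rw [win_eq_iff]
    by_cases hd : NonD i n
    · exfalso
      obtain ⟨q, r, hr, rfl⟩ := decomp m i
      have h := (pal_offset hr hm hm3 hd hp).1
      have := odd_K m
      omega
    · exact allD_agree hd hd1
  · rintro rfl
    exact ⟨i1, rfl, allD_pal hd1⟩

theorem palCplx_odd {n : ℕ} (hn : 8 ≤ n) (ho : n % 2 = 1) : palCplx u n = 3 := by
  obtain ⟨m, hm, hm3⟩ := level n hn
  obtain ⟨i1, hd1, -⟩ := allD_exists n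
  have hoK := odd_K m
  obtain ⟨r, hr2⟩ : ∃ r, 2 * r + n = 3 * (7 * 3 ^ m) := ⟨(3 * (7 * 3 ^ m) - n) / 2, by omega⟩
  have hr : r < 7 * 3 ^ m := by omega
  have hdA : NonD (7 * 3 ^ m * 1 + r) n := (nonD_iff hr hm).2 ⟨1, by omega, one_2⟩
  have hdB : NonD (7 * 3 ^ m * 0 + r) n := (nonD_iff hr hm).2 ⟨0, by omega, one_zero⟩
  unfold palCplx
  rw [palset_eq, Set.ncard_eq_three]
  refine ⟨win u i1 n, win u (7 * 3 ^ m * 1 + r) n, win u (7 * 3 ^ m * 0 + r) n, ?_, ?_, ?_, ?_⟩
  · intro h
    exact hd1 (nonD_of_agree hdA (agree_symm (win_eq_iff.1 h)))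
  · intro h
    exact hd1 (nonD_of_agree hdB (agree_symm (win_eq_iff.1 h)))
  · intro h
    have := types_of_agree hr hm (win_eq_iff.1 h) 0 (by omega)
    rw [add_zero, add_zero, one_1, one_zero] at this
    exact absurd this (by simp)
  · ext w
    simp only [Set.mem_ofPred_eq, Set.mem_insert_iff, Set.mem_singleton_iff]
    constructor
    · rintro ⟨i, rfl, hp⟩
      by_cases hd : NonD i n
      · right
        obtain ⟨q, r', hr', rfl⟩ := decomp m i
        obtain ⟨h1, h2⟩ := pal_offset hr' hm hm3 hd hp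
        obtain rfl : r' = r := by omega
        obtain ⟨t, ht, hone⟩ := (nonD_iff hr' hm).1 hd
        have htt : t < 3 := by
          apply lt_of_mul_lt (K := 7 * 3 ^ m)
          omega
        rw [win_eq_iff, win_eq_iff]
        cases hq : one q
        · right
          have hs := one_succ q
          rw [hq] at hs
          have hq1 : one (q + 1) = true := by
            rcases hs with h | h
            · exact absurd h (by simp)
            · exact h
          apply agree_of_types
          intro t ht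
          have htt : t < 3 := by
            apply lt_of_mul_lt (K := 7 * 3 ^ m)
            omega
          interval_cases t
          · rw [add_zero, add_zero, hq, one_zero]
          · rw [hq1]; exact one_1.symm
          · rw [← h2, hq]; exact one_2.symm
        · left
          have hq1 : one (q + 1) = false := by
            interval_cases t
            · rw [add_zero, hq] at hone; exact absurd hone (by simp)
            · exact hone
            · rw [← h2, hq] at hone; exact absurd hone (by simp)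
          apply agree_of_types
          intro t ht
          have htt : t < 3 := by
            apply lt_of_mul_lt (K := 7 * 3 ^ m)
            omega
          interval_cases t
          · rw [add_zero, add_zero, hq, one_1]
          · rw [hq1]; exact one_2.symm
          · rw [← h2, hq]; exact one_3.symm
      · left
        rw [win_eq_iff]
        exact allD_agree hd hd1
    · rintro (rfl | rfl | rfl)
      · exact ⟨i1, rfl, allD_pal hd1⟩
      · refine ⟨_, rfl, ?_⟩
        have e9 : 7 * 3 ^ (m + 2) = 9 * (7 * 3 ^ m) := by ring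
        rw [pal_agree (M := m + 2) (by rw [e9]; omega), e9]
        rw [show 9 * (7 * 3 ^ m) - (7 * 3 ^ m * 1 + r) - n = 7 * 3 ^ m * 5 + r by omega]
        apply agree_of_types
        intro t ht
        have htt : t < 3 := by
          apply lt_of_mul_lt (K := 7 * 3 ^ m)
          omega
        interval_cases t
        · exact one_1.trans one_5.symm
        · exact one_2.trans one_6.symm
        · exact one_3.trans one_7.symm
      · refine ⟨_, rfl, ?_⟩
        have e3 : 7 * 3 ^ (m + 1) = 3 * (7 * 3 ^ m) := by ring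
        rw [pal_agree (M := m + 1) (by rw [e3]; omega), e3]
        rw [show 3 * (7 * 3 ^ m) - (7 * 3 ^ m * 0 + r) - n = 7 * 3 ^ m * 0 + r by omega]
        exact fun _ _ => rfl

theorem T_zero (n : ℕ) (hn : 8 ≤ n) : T u n = 0 := by
  unfold T
  rw [count_succ n hn]
  rcases Nat.mod_two_eq_zero_or_one n with h | h
  · rw [palCplx_even hn h, palCplx_odd (n := n + 1) (by omega) (by omega)]
    push_cast; ring
  · rw [palCplx_odd hn h, palCplx_even (n := n + 1) (by omega) (by omega)]
    push_cast; ring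

end Pool.Agent.Lib_helper63.Pal
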