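import Pool.Agent.Lib_helper63.Pal.Cantor

/-! Synchronisation: equal windows sit at congruent positions. -/

namespace Pool.Agent.Lib_helper63.Pal

/-- The windows of length `n` at `i` and `i'` agree. -/
def Agree (i i' n : ℕ) : Prop := ∀ j < n, u (i + j) = u (i' + j)

/-- The window of length `n` at `i` contains a letter different from `3`. -/
def NonD (i n : ℕ) : Prop := ∃ j < n, u (i + j) ≠ 3

theorem win_eq_iff {α : Type*} {v : ℕ → α} {i i' n : ℕ} :
    win v i n = win v i' n ↔ ∀ j < n, v (i + j) = v (i' + j) := by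
  unfold win
  rw [List.map_inj_left]
  simp

theorem exists_adj (b : ℕ → Bool) (n j0 j1 : ℕ) (h0 : j0 < n) (h1 : j1 < n)
    (hne : b j0 ≠ b j1) : ∃ j, j + 1 < n ∧ b j ≠ b (j + 1) := by
  by_contra hcon
  push Not at hcon
  have key : ∀ j, j < n → b j = b 0 := by
    intro j
    induction j with
    | zero => intro _; rfl
    | succ j ih => intro hj; rw [← hcon j hj]; exact ih (by omega)
  exact hne ((key j0 h0).trans (key j1 h1).symm)

theorem boundary (x : ℕ) (h : decide (u x = 3) ≠ decide (u (x + 1) = 3)) : (x + 1) % 7 = 0 := by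
  by_contra hne
  have : (x + 1) / 7 = x / 7 := by omega
  apply h
  simp only [u_eq_three, this]

theorem sync_base (x x' : ℕ) (ha : Agree x x' 8) (hn : NonD x 8) : x ≡ x' [MOD 7] := by
  obtain ⟨j0, hj0, h0⟩ := hn
  have hd : ∃ j1 < 8, u (x + j1) = 3 := by
    rcases one_succ (x / 7) with h | h
    · exact ⟨0, by norm_num, by rw [add_zero, u_eq_three]; exact h⟩
    · refine ⟨7, by norm_num, ?_⟩
      rw [u_eq_three]
      have : (x + 7) / 7 = x / 7 + 1 := by omega
      rw [this]; exact h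
  obtain ⟨j1, hj1, h1⟩ := hd
  obtain ⟨j, hj, hb⟩ := exists_adj (fun j => decide (u (x + j) = 3)) 8 j0 j1 hj0 hj1
    (by simp [h0, h1])
  have hb1 := boundary (x + j) hb
  have hb2 := boundary (x' + j) (by
    rw [← ha j (by omega)]
    have := ha (j + 1) hj
    rw [← add_assoc, ← add_assoc] at this
    rw [← this]
    exact hb)
  unfold Nat.ModEq
  omega

theorem pattern (q q' : ℕ) (h0 : one q = one q') (h1 : one (q + 1) = one (q' + 1))
    (h2 : one (q + 2) = one (q' + 2)) (h3 : one (q + 3) = one (q' + 3))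
    (hn : one q = false ∨ one (q + 1) = false ∨ one (q + 2) = false ∨ one (q + 3) = false) :
    q ≡ q' [MOD 3] := by
  have key : ∀ q, ∃ Q, (q % 3 = 0 ∧ one q = one Q ∧ one (q + 1) = true ∧ one (q + 2) = one Q ∧
      one (q + 3) = one (Q + 1)) ∨ (q % 3 = 1 ∧ one q = true ∧ one (q + 1) = one Q ∧
      one (q + 2) = one (Q + 1) ∧ one (q + 3) = true) ∨ (q % 3 = 2 ∧ one q = one Q ∧
      one (q + 1) = one (Q + 1) ∧ one (q + 2) = true ∧ one (q + 3) = one (Q + 1)) := by
    intro q
    obtain ⟨Q, h | h | h⟩ : ∃ Q, q = 3 * Q ∨ q = 3 * Q + 1 ∨ q = 3 * Q + 2 := ⟨q / 3, by omega⟩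
    · refine ⟨Q, Or.inl ⟨by omega, ?_, ?_, ?_, ?_⟩⟩
      · rw [h, one_mul3]
      · rw [h, one_mul3_1]
      · rw [h, one_mul3_2]
      · rw [h, show 3 * Q + 3 = 3 * (Q + 1) by ring, one_mul3]
    · refine ⟨Q, Or.inr (Or.inl ⟨by omega, ?_, ?_, ?_, ?_⟩)⟩
      · rw [h, one_mul3_1]
      · rw [h, show 3 * Q + 1 + 1 = 3 * Q + 2 by ring, one_mul3_2]
      · rw [h, show 3 * Q + 1 + 2 = 3 * (Q + 1) by ring, one_mul3]
      · rw [h, show 3 * Q + 1 + 3 = 3 * (Q + 1) + 1 by ring, one_mul3_1]
    · refine ⟨Q, Or.inr (Or.inr ⟨by omega, ?_, ?_, ?_, ?_⟩)⟩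
      · rw [h, one_mul3_2]
      · rw [h, show 3 * Q + 2 + 1 = 3 * (Q + 1) by ring, one_mul3]
      · rw [h, show 3 * Q + 2 + 2 = 3 * (Q + 1) + 1 by ring, one_mul3_1]
      · rw [h, show 3 * Q + 2 + 3 = 3 * (Q + 1) + 2 by ring, one_mul3_2]
  obtain ⟨Q, hQ⟩ := key q
  obtain ⟨Q', hQ'⟩ := key q'
  have hs := one_succ Q
  have hs' := one_succ Q'
  unfold Nat.ModEq
  rcases hQ with ⟨m0, a0, a1, a2, a3⟩ | ⟨m0, a0, a1, a2, a3⟩ | ⟨m0, a0, a1, a2, a3⟩ <;>
  rcases hQ' with ⟨m1, b0, b1, b2, b3⟩ | ⟨m1, b0, b1, b2, b3⟩ | ⟨m1, b0, b1, b2, b3⟩ <;>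
  (rw [a0, b0] at h0; rw [a1, b1] at h1; rw [a2, b2] at h2; rw [a3, b3] at h3;
   rw [a0, a1, a2, a3] at hn) <;> first | omega | skip
  all_goals exfalso
  all_goals clear m0 m1 a0 a1 a2 a3 b0 b1 b2 b3
  all_goals revert h0 h1 h2 h3 hn hs hs'
  all_goals generalize one Q = a
  all_goals generalize one (Q + 1) = b
  all_goals generalize one Q' = c
  all_goals generalize one (Q' + 1) = d
  all_goals revert a b c d
  all_goals decide

/-- from length `K+1` to longer windows -/
theorem sync_gen (K : ℕ) (hK : ∀ x x', Agree x x' (K + 1) → NonD x (K + 1) → x ≡ x' [MOD K])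
    (n : ℕ) (hn : K + 1 ≤ n) (x x' : ℕ) (ha : Agree x x' n) (hd : NonD x n) :
    x ≡ x' [MOD K] := by
  obtain ⟨j0, hj0, h0⟩ := hd
  set s := min j0 (n - (K + 1)) with hs
  have h1 : s ≤ j0 := min_le_left _ _
  have h2 : s + (K + 1) ≤ n := by
    have : s ≤ n - (K + 1) := min_le_right _ _
    omega
  have h3 : j0 - s < K + 1 := by
    rcases le_total j0 (n - (K + 1)) with h | h
    · have : s = j0 := min_eq_left h
      omega
    · have : s = n - (K + 1) := min_eq_right h
      omega
  have hA : Agree (x + s) (x' + s) (K + 1) := by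
    intro j hj
    have := ha (s + j) (by omega)
    rwa [← add_assoc, ← add_assoc] at this
  have hN : NonD (x + s) (K + 1) := by
    refine ⟨j0 - s, h3, ?_⟩
    rw [show x + s + (j0 - s) = x + j0 by omega]
    exact h0
  have := hK _ _ hA hN
  exact Nat.ModEq.add_right_cancel' s this

theorem u_block_zero (m q : ℕ) : u (7 * 3 ^ m * q) = if one q then 3 else 0 := by
  have h := u_block m q 0 (by positivity)
  rw [add_zero, u_zero] at h
  exact h

theorem u_block_last (m q : ℕ) :
    u (7 * 3 ^ m * q + (7 * 3 ^ m - 1)) = if one q then 3 else 0 := by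
  have h := u_block m q (7 * 3 ^ m - 1) (by
    have : 0 < 7 * 3 ^ m := by positivity
    omega)
  rw [u_last] at h
  exact h

theorem one_eq_of_zero {m q q' : ℕ} (h : u (7 * 3 ^ m * q) = u (7 * 3 ^ m * q')) :
    one q = one q' := by
  rw [u_block_zero, u_block_zero] at h
  cases h1 : one q <;> cases h2 : one q' <;> simp_all

theorem one_eq_of_last {m q q' : ℕ} (h : u (7 * 3 ^ m * q + (7 * 3 ^ m - 1)) =
    u (7 * 3 ^ m * q' + (7 * 3 ^ m - 1))) :
    one q = one q' := by
  rw [u_block_last, u_block_last] at h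
  cases h1 : one q <;> cases h2 : one q' <;> simp_all

theorem sync0 (m : ℕ) : ∀ x x', Agree x x' (7 * 3 ^ m + 1) → NonD x (7 * 3 ^ m + 1) →
    x ≡ x' [MOD 7 * 3 ^ m] := by
  induction m with
  | zero => intro x x' ha hn; simpa using sync_base x x' (by simpa using ha) (by simpa using hn)
  | succ m ih =>
    intro x x' ha hn
    have e3 : 7 * 3 ^ (m + 1) = 7 * 3 ^ m * 3 := by ring
    rw [e3] at ha hn ⊢
    have hmod := sync_gen _ ih (7 * 3 ^ m * 3 + 1) (by
      have : 0 < 7 * 3 ^ m := by positivity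
      omega) x x' ha hn
    have hKpos : 0 < 7 * 3 ^ m := by positivity
    set K := 7 * 3 ^ m with hKdef
    obtain ⟨q, r, hr, hx⟩ : ∃ q r, r < K ∧ x = K * q + r :=
      ⟨x / K, x % K, Nat.mod_lt _ hKpos, (Nat.div_add_mod x K).symm⟩
    obtain ⟨q', r', hr', hx'⟩ : ∃ q r, r < K ∧ x' = K * q + r :=
      ⟨x' / K, x' % K, Nat.mod_lt _ hKpos, (Nat.div_add_mod x' K).symm⟩
    have hrr : r = r' := by
      have := hmod
      unfold Nat.ModEq at this
      rw [hx, hx', Nat.mul_add_mod, Nat.mul_add_mod, Nat.mod_eq_of_lt hr,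
        Nat.mod_eq_of_lt hr'] at this
      exact this
    subst hrr
    have p0 : one q = one q' := by
      apply one_eq_of_last (m := m)
      have h := ha (K - 1 - r) (by omega)
      rw [hx, hx', show K * q + r + (K - 1 - r) = K * q + (K - 1) by omega,
        show K * q' + r + (K - 1 - r) = K * q' + (K - 1) by omega] at h
      exact h
    have pt : ∀ t, 1 ≤ t → t ≤ 3 → one (q + t) = one (q' + t) := by
      intro t ht1 ht3
      apply one_eq_of_zero (m := m)
      have hKt : K ≤ K * t := Nat.le_mul_of_pos_right _ ht1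
      have hKt3 : K * t ≤ K * 3 := Nat.mul_le_mul_left _ ht3
      have h := ha (K * t - r) (by omega)
      have e1 : x + (K * t - r) = K * (q + t) := by rw [hx, mul_add]; omega
      have e2 : x' + (K * t - r) = K * (q' + t) := by rw [hx', mul_add]; omega
      rw [e1, e2] at h
      exact h
    have hnon : one q = false ∨ one (q + 1) = false ∨ one (q + 2) = false ∨
        one (q + 3) = false := by
      obtain ⟨j, hj, hne⟩ := hn
      have hdm := Nat.div_add_mod (r + j) K
      set t := (r + j) / K with ht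
      set s := (r + j) % K with hs
      have hs' : s < K := Nat.mod_lt _ hKpos
      have ht4 : t < 4 := by
        rw [ht, Nat.div_lt_iff_lt_mul hKpos]; omega
      have e : x + j = K * (q + t) + s := by rw [hx, mul_add]; omega
      rw [e, hKdef, u_block m (q + t) s hs'] at hne
      have hone : one (q + t) = false := by
        cases h : one (q + t)
        · rfl
        · rw [h] at hne; simp at hne
      interval_cases t
      · exact Or.inl hone
      · exact Or.inr (Or.inl hone)
      · exact Or.inr (Or.inr (Or.inl hone))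
      · exact Or.inr (Or.inr (Or.inr hone))
    have h3 := pattern q q' p0 (pt 1 le_rfl (by norm_num)) (pt 2 (by norm_num) (by norm_num))
      (pt 3 (by norm_num) le_rfl) hnon
    rw [hx, hx']
    exact Nat.ModEq.add_right _ (Nat.ModEq.mul_left' K h3)

/-- **Synchronisation.** -/
theorem sync {m n x x' : ℕ} (hn : 7 * 3 ^ m < n) (ha : Agree x x' n) (hd : NonD x n) :
    x ≡ x' [MOD 7 * 3 ^ m] :=
  sync_gen _ (sync0 m) n hn x x' ha hd

end Pool.Agent.Lib_helper63.Pal
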